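import Pool.Agent.H319.RAD.Words
import Pool.Agent.H319.RAD.RF

/-!
# A relatively free group with a nontrivial radicable verbal subgroup (MP_eeceb3_al, Q2 and Q1)

`Γ` is a central extension by the rational numbers `ℚ` of one of the library's groups of large
exponent `N`, in which the `N`-th powers of the values of certain words at noncommuting pairs have
prescribed values in `ℚ`. The values are chosen so that `Γ` has the laws
`w(x, y) = w(k_m(x, y), x) ^ (m + 1)` for all `m`, where all values of `w` lie in the centre. In the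
relatively free groups of the variety generated by `Γ` the verbal subgroup of `w` is then a
nontrivial rational vector space.
-/

set_option autoImplicit false

namespace Pool.Agent.Results.MP_eeceb3_al.RadicableVerbal

open Pool.Agent.H319.RAD Pool.Agent.TH54.BU Pool.Agent.Y45.MON Pool.Agent.Y872.MON

/-- `F` is relatively free on the subset `X`: `X` generates `F`, and every map from `X` to `F`
extends to an endomorphism of `F` -/
def IsRelFreeOn (F : Type) [Group F] (X : Set F) : Prop :=
  Subgroup.closure X = ⊤ ∧ ∀ m : X → F, ∃ h : F →* F, ∀ x : X, h x = m x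

/-- the verbal subgroup `W(F)` of a set `W` of words in the letters `x_0, x_1, …`: it is generated
by the values of the words of `W` under all substitutions of elements of `F` for the letters -/
def verbal (W : Set (FreeGroup ℕ)) (F : Type) [Group F] : Subgroup F :=
  Subgroup.closure {g | ∃ w ∈ W, ∃ θ : FreeGroup ℕ →* F, θ w = g}

/-- the group `H` is radicable -/
def Radicable (H : Type) [Group H] : Prop := ∀ (h : H) (n : ℕ), 1 ≤ n → ∃ x : H, x ^ n = h

/-- There is a word `w` such that for every set `I` with at least two elements there is a group `F`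
which is relatively free on a subset `X` in bijection with `I`, and in which the verbal subgroup
`w(F)` is nontrivial and radicable, and moreover central and torsion free. -/
theorem result : ∃ w : FreeGroup ℕ, ∀ (I : Type), Nontrivial I →
    ∃ (F : Type) (_ : Group F) (X : Set F), Nonempty (I ≃ X) ∧ IsRelFreeOn F X ∧
      verbal {w} F ≠ ⊥ ∧ Radicable (verbal {w} F) ∧ verbal {w} F ≤ Subgroup.center F ∧
      ∀ g ∈ verbal {w} F, ∀ n : ℕ, 1 ≤ n → g ^ n = 1 → g = 1 := by
  classical
  obtain ⟨w, n0, hw, hn0, hmon⟩ := monC 3 (fun _ => 1) (fun _ => Or.inl rfl)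
  obtain ⟨N, hN0, hNp⟩ := Nat.exists_infinite_primes n0
  have hδ : ∀ j, w.δ j = 1 := fun j => by rw [hw]
  have hN : N ≠ 1 := hNp.one_lt.ne'
  obtain ⟨Γ, L, iΓ, iL, φ, ι, col, rk, M⟩ := hmon N hN (fun q hq1 hq2 => by
    rw [(Nat.prime_dvd_prime_iff_eq hq1 hNp).1 hq2]
    exact hN0) Co inferInstance Ph (fun _ _ _ => N) (fun _ _ _ => ⟨dvd_rfl, hN⟩)
    (Multiplicative ℚ) inferInstance ch
  have hl := laws M hδ hN
  obtain ⟨a0, b0, hab⟩ := ww_inf M hδ hN
  refine ⟨ww w N (FreeGroup.of 0) (FreeGroup.of 1), fun I hI => ?_⟩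
  have hΓ : ∃ g : Γ, g ≠ 1 := ⟨_, hab⟩
  -- the values of the word
  have hval : {g : RF Γ I | ∃ v ∈ ({ww w N (FreeGroup.of 0) (FreeGroup.of 1)} :
      Set (FreeGroup ℕ)), ∃ θ : FreeGroup ℕ →* RF Γ I, θ v = g} =
      {g | ∃ a b : RF Γ I, ww w N a b = g} := by
    ext g
    constructor
    · rintro ⟨v, hv, θ, rfl⟩
      rw [Set.mem_singleton_iff] at hv
      subst hv
      exact ⟨_, _, (map_ww w N θ _ _).symm⟩
    · rintro ⟨a, b, rfl⟩
      refine ⟨_, Set.mem_singleton _, FreeGroup.lift (fun k => if k = 0 then a else b), ?_⟩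
      rw [map_ww, FreeGroup.lift_apply_of, FreeGroup.lift_apply_of, if_pos rfl,
        if_neg (by norm_num)]
  have hV : verbal {ww w N (FreeGroup.of 0) (FreeGroup.of 1)} (RF Γ I) =
      Subgroup.closure {g | ∃ a b : RF Γ I, ww w N a b = g} := by
    unfold verbal
    rw [hval]
  -- the laws in the relatively free group
  have hcen : ∀ a b c : RF Γ I, ww w N a b * c = c * ww w N a b := by
    intro a b c
    apply RF_eq
    intro θ
    rw [map_mul, map_mul, map_ww, hl.cen]
  have hrt : ∀ (a b : RF Γ I) (m : ℕ), ww w N (kk w a b m) a ^ (m + 1) = ww w N a b := by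
    intro a b m
    apply RF_eq
    intro θ
    rw [map_pow, map_ww, map_ww, map_kk, hl.rt]
  have hle : verbal {ww w N (FreeGroup.of 0) (FreeGroup.of 1)} (RF Γ I) ≤
      Subgroup.center (RF Γ I) := by
    rw [hV, Subgroup.closure_le]
    rintro _ ⟨a, b, rfl⟩
    rw [SetLike.mem_coe, Subgroup.mem_center_iff]
    exact fun c => (hcen a b c).symm
  refine ⟨RF Γ I, inferInstance, Set.range (gx Γ), ⟨Equiv.ofInjective _ (gx_inj hΓ)⟩,
    ⟨gx_closure, ?_⟩, ?_, ?_, hle, ?_⟩
  · intro m
    obtain ⟨h, hh⟩ := gx_ext (fun i : I => m ⟨gx Γ i, i, rfl⟩)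
    refine ⟨h, ?_⟩
    rintro ⟨_, i, rfl⟩
    exact hh i
  · -- nontrivial
    obtain ⟨i, j, hij⟩ := hI.exists_pair_ne
    obtain ⟨θ, hθ⟩ := gx_hom (fun k : I => if k = i then a0 else b0)
    intro hbot
    have h1 : ww w N (gx Γ i) (gx Γ j) ∈
        verbal {ww w N (FreeGroup.of 0) (FreeGroup.of 1)} (RF Γ I) := by
      rw [hV]
      exact Subgroup.subset_closure ⟨_, _, rfl⟩
    rw [hbot, Subgroup.mem_bot] at h1
    have h2 := congrArg θ h1
    rw [map_ww, hθ, hθ, if_pos rfl, if_neg hij.symm, map_one] at h2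
    exact hab h2
  · -- radicable
    rintro ⟨h, hh⟩ n hn
    suffices H : ∃ x ∈ verbal {ww w N (FreeGroup.of 0) (FreeGroup.of 1)} (RF Γ I),
        x ^ n = h by
      obtain ⟨x, hx, hxn⟩ := H
      exact ⟨⟨x, hx⟩, Subtype.ext hxn⟩
    obtain ⟨m, rfl⟩ : ∃ m, n = m + 1 := ⟨n - 1, by omega⟩
    rw [hV] at hh hle ⊢
    induction hh using Subgroup.closure_induction with
    | mem g hg =>
      obtain ⟨a, b, rfl⟩ := hg
      exact ⟨ww w N (kk w a b m) a, Subgroup.subset_closure ⟨_, _, rfl⟩, hrt a b m⟩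
    | one => exact ⟨1, Subgroup.one_mem _, one_pow _⟩
    | mul g g' _ _ ih ih' =>
      obtain ⟨x, hx, rfl⟩ := ih
      obtain ⟨x', hx', rfl⟩ := ih'
      refine ⟨x * x', Subgroup.mul_mem _ hx hx', ?_⟩
      have h1 : Commute x x' := (Subgroup.mem_center_iff.1 (hle hx') x)
      exact h1.mul_pow _
    | inv g _ ih =>
      obtain ⟨x, hx, rfl⟩ := ih
      exact ⟨x⁻¹, Subgroup.inv_mem _ hx, inv_pow _ _⟩
  · -- torsion free
    intro g hg n hn hgn
    apply RF_sep
    intro θ
    apply tors M (θ g) ?_ n hn (by rw [← map_pow, hgn, map_one])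
    have h1 : verbal {ww w N (FreeGroup.of 0) (FreeGroup.of 1)} (RF Γ I) ≤
        ι.range.comap θ := by
      rw [hV, Subgroup.closure_le]
      rintro _ ⟨a, b, rfl⟩
      rw [SetLike.mem_coe, Subgroup.mem_comap, map_ww]
      exact ww_range M hδ _ _
    exact h1 hg

end Pool.Agent.Results.MP_eeceb3_al.RadicableVerbal
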